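import Mathlib
import Pool.Agent.H5.BCH
import Pool.Agent.H5.BCHGeo

set_option autoImplicit false

namespace Pool.Agent.Results.MP_c7d842_co.Counter

open Finset Pool.Agent.H5
open scoped Pointwise

/-- The lattice polytope spanned by a finite set of integer points. -/
def latPoly {ι : Type} (S : Finset (ι → ℤ)) : Set (ι → ℝ) :=
  convexHull ℝ ((fun (z : ι → ℤ) (i : ι) => (z i : ℝ)) '' (S : Set (ι → ℤ)))

/-- `P ⊂ ℝ^d` has degree `s`: `d + 1 - s` is the least `k ≥ 1` such that `kP` has an interior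
lattice point. -/
def HasDegree {d : ℕ} (P : Set (Fin d → ℝ)) (s : ℕ) : Prop :=
  s ≤ d ∧ IsLeast {k : ℕ | 1 ≤ k ∧ ∃ z : Fin d → ℤ,
    (fun i => (z i : ℝ)) ∈ interior ((fun x : Fin d → ℝ => (k : ℝ) • x) '' P)} (d + 1 - s)

/-- The Cayley polytope of the `k + 1` lattice polytopes spanned by `Q 0, …, Q k` in `ℝ^m`. -/
def cayley {m k : ℕ} (Q : Fin (k + 1) → Finset (Fin m → ℤ)) : Set (Fin m ⊕ Fin k → ℝ) :=
  convexHull ℝ (⋃ i : Fin (k + 1),
    (fun p : Fin m → ℝ => Sum.elim p (fun j : Fin k => if i = j.succ then (1 : ℝ) else 0)) ''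
      latPoly (Q i))

/-- Lattice equivalence: a unimodular integer matrix and an integer translation carry `P` onto
`P'`. -/
def LatEquiv {d m k : ℕ} (P : Set (Fin d → ℝ)) (P' : Set (Fin m ⊕ Fin k → ℝ)) : Prop :=
  ∃ (U : Matrix (Fin m ⊕ Fin k) (Fin d) ℤ) (V : Matrix (Fin d) (Fin m ⊕ Fin k) ℤ)
    (t : Fin m ⊕ Fin k → ℤ), U * V = 1 ∧ V * U = 1 ∧
    (fun (x : Fin d → ℝ) (j : Fin m ⊕ Fin k) => ∑ i, (U j i : ℝ) * x i + (t j : ℝ)) '' P = P'

def AA : Fin 14 → Fin 112 → ℤ := fun i j => BCH.G i (14 + j)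

def SS : Finset (Fin (14 + 112) → ℤ) := univ.image (BCHGeo.vx AA)

theorem SS_eq : latPoly SS = BCHGeo.P AA := by
  unfold latPoly BCHGeo.P SS
  congr 1
  rw [coe_image, coe_univ, Set.image_univ, ← Set.range_comp]
  rfl

theorem L_int (z : Fin (14 + 112) → ℤ) (p : Fin (14 + 112)) :
    2 * BCHGeo.L AA p (fun i => (z i : ℝ)) = ((Fin.addCases (motive := fun _ => ℤ)
      (fun i => z (Fin.castAdd 112 i))
      (fun j => 2 * z (Fin.natAdd 14 j) + ∑ i, AA i j * z (Fin.castAdd 112 i)) p : ℤ) : ℝ) := by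
  induction p using Fin.addCases with
  | left i => simp only [BCHGeo.L, Fin.addCases_left]; ring
  | right j =>
    simp only [BCHGeo.L, Fin.addCases_right]
    push_cast
    rw [mul_add, mul_sum]
    congr 1
    exact sum_congr rfl fun i _ => by ring

theorem lower (k : ℕ) (z : Fin (14 + 112) → ℤ)
    (h1 : ∀ p, 0 < BCHGeo.L AA p (fun i => (z i : ℝ)))
    (h2 : ∑ p, BCHGeo.L AA p (fun i => (z i : ℝ)) < k) : 91 ≤ k := by
  set y : Fin (14 + 112) → ℤ := fun p => Fin.addCases (motive := fun _ => ℤ)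
      (fun i => z (Fin.castAdd 112 i))
      (fun j => 2 * z (Fin.natAdd 14 j) + ∑ i, AA i j * z (Fin.castAdd 112 i)) p with hy
  have hy1 : ∀ p, 0 < y p := by
    intro p
    have := L_int z p
    have h3 : (0 : ℝ) < (y p : ℝ) := by
      rw [hy]; simp only; rw [← this]; linarith [h1 p]
    exact_mod_cast h3
  have hy2 : ∑ p, y p < 2 * k := by
    have h3 : ((∑ p, y p : ℤ) : ℝ) < 2 * k := by
      rw [Int.cast_sum]
      have : ∑ p, (y p : ℝ) = 2 * ∑ p, BCHGeo.L AA p (fun i => (z i : ℝ)) := by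
        rw [mul_sum]; exact sum_congr rfl fun p _ => (L_int z p).symm
      linarith
    exact_mod_cast h3
  let x : ℕ → ℤ := fun i => if h : i < 14 then z (Fin.castAdd 112 ⟨i, h⟩) else 0
  have hw := BCH.weight x
  have hpar : ∀ p : Fin (14 + 112), (∑ i ∈ range 14, BCH.G i p * x i) % 2 = y p % 2 := by
    intro p
    induction p using Fin.addCases with
    | left i =>
      rw [sum_eq_single (i : ℕ)]
      · rw [Fin.val_castAdd, BCH.G_id i i.2 i i.2]
        simp only [hy, Fin.addCases_left, x, i.2, dif_pos, if_true, one_mul]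
      · intro j hj hji
        rw [Fin.val_castAdd, BCH.G_id j (mem_range.1 hj) i i.2, if_neg hji, zero_mul]
      · intro h; exact absurd (mem_range.2 i.2) h
    | right j =>
      simp only [hy, Fin.addCases_right]
      rw [← Fin.sum_univ_eq_sum_range (fun i => BCH.G i (Fin.natAdd 14 j : Fin (14 + 112)) * x i) 14]
      have : ∑ i : Fin 14, BCH.G i (Fin.natAdd 14 j : Fin (14 + 112)) * x i =
          ∑ i, AA i j * z (Fin.castAdd 112 i) := by
        refine sum_congr rfl fun i _ => ?_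
        simp only [x, i.2, dif_pos, AA, Fin.val_natAdd]
      rw [this]; omega
  have e1 := Fin.sum_univ_eq_sum_range (fun j => (∑ i ∈ range 14, BCH.G i j * x i) % 2) (14 + 112)
  have e2 : ∑ p, y p % 2 ≤ 72 := by
    rw [← sum_congr rfl fun p _ => hpar p, e1]; exact hw
  have e3 : ∑ _p : Fin (14 + 112), (2 : ℤ) ≤ ∑ p, (y p + y p % 2) :=
    sum_le_sum fun p _ => by have := hy1 p; omega
  rw [sum_add_distrib, sum_const, card_univ, Fintype.card_fin] at e3
  norm_num at e3
  omega

def z0 : Fin (14 + 112) → ℤ := fun p => Fin.addCases (motive := fun _ => ℤ) (fun _ => 1)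
  (fun j => 1 - (∑ i ∈ range 14, BCH.G i (14 + j) + 1) / 2) p

theorem z0_int : (∀ p, 0 < BCHGeo.L AA p (fun i => (z0 i : ℝ))) ∧
    ∑ p, BCHGeo.L AA p (fun i => (z0 i : ℝ)) < (91 : ℕ) := by
  have hs : ∀ j : Fin 112, ∑ i, AA i j * z0 (Fin.castAdd 112 i) =
      ∑ i ∈ range 14, BCH.G i (14 + j) := by
    intro j
    rw [← Fin.sum_univ_eq_sum_range (fun i => BCH.G i (14 + j)) 14]
    refine sum_congr rfl fun i _ => ?_
    simp only [z0, Fin.addCases_left, AA, mul_one]
  constructor
  · intro p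
    have := L_int z0 p
    induction p using Fin.addCases with
    | left i =>
      simp only [z0, Fin.addCases_left] at this ⊢
      push_cast at this; linarith
    | right j =>
      rw [Fin.addCases_right, hs] at this
      have h1 := BCH.inner_ok.1 j j.2
      have h2 : z0 (Fin.natAdd 14 j) = 1 - (∑ i ∈ range 14, BCH.G i (14 + j) + 1) / 2 := by
        simp only [z0, Fin.addCases_right]
      rw [h2] at this
      have h3 : (0 : ℝ) < ((2 * (1 - (∑ i ∈ range 14, BCH.G i (14 + j) + 1) / 2) +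
        ∑ i ∈ range 14, BCH.G i (14 + j) : ℤ) : ℝ) := by exact_mod_cast h1
      linarith
  · have e : 2 * ∑ p, BCHGeo.L AA p (fun i => (z0 i : ℝ)) =
        ((14 + ∑ j ∈ range 112, (2 * (1 - (∑ i ∈ range 14, BCH.G i (14 + j) + 1) / 2) +
          ∑ i ∈ range 14, BCH.G i (14 + j)) : ℤ) : ℝ) := by
      rw [mul_sum, sum_congr rfl fun p _ => L_int z0 p, ← Int.cast_sum, Fin.sum_univ_add]
      refine congrArg (Int.cast : ℤ → ℝ) ?_
      refine congrArg₂ (· + ·) ?_ ?_
      · simp only [z0, Fin.addCases_left]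
        rw [sum_const, card_univ, Fintype.card_fin]; norm_num
      · rw [← Fin.sum_univ_eq_sum_range (fun j => (2 * (1 - (∑ i ∈ range 14, BCH.G i (14 + j) + 1) / 2) +
          ∑ i ∈ range 14, BCH.G i (14 + j))) 112]
        refine sum_congr rfl fun j _ => ?_
        rw [Fin.addCases_right, hs]
        simp only [z0, Fin.addCases_right]
    have h3 : ((14 + ∑ j ∈ range 112, (2 * (1 - (∑ i ∈ range 14, BCH.G i (14 + j) + 1) / 2) +
          ∑ i ∈ range 14, BCH.G i (14 + j)) : ℤ) : ℝ) < ((182 : ℤ) : ℝ) :=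
      Int.cast_lt.2 BCH.inner_ok.2
    rw [← e] at h3
    push_cast at h3 ⊢
    linarith

/-- index of a vertex -/
def ix : Option (Fin (14 + 112)) → ℕ
  | none => 126
  | some p => p

theorem ix_inj : Function.Injective ix := by
  intro p q h
  cases p with
  | none => cases q with
    | none => rfl
    | some q => have := q.2; simp only [ix] at h; omega
  | some p => cases q with
    | none => have := p.2; simp only [ix] at h; omega
    | some q => simp only [ix] at h; rw [Fin.ext h]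

theorem five (α : Fin (14 + 112) → ℤ) (β : ℤ) (h : Option (Fin (14 + 112)) → ℤ)
    (hh : ∀ p, h p = ∑ q, α q * BCHGeo.vx AA p q + β) (h01 : ∀ p, h p = 0 ∨ h p = 1)
    (hne : ∃ p, h p ≠ 0) : 5 ≤ ∑ p, h p := by
  classical
  set B := univ.filter fun p => h p = 1 with hB
  have hsum : ∀ f : Option (Fin (14 + 112)) → ℤ, ∑ p ∈ B, f p = ∑ p, f p * h p := by
    intro f
    rw [hB, sum_filter]
    refine sum_congr rfl fun p _ => ?_
    rcases h01 p with e | e <;> simp [e]
  have h5 := BCH.five (B.image ix) ?_ ?_ ?_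
  · rw [card_image_of_injective _ ix_inj] at h5
    have := hsum fun _ => 1
    simp only [sum_const, nsmul_eq_mul, mul_one, one_mul] at this
    rw [← this]; exact_mod_cast h5
  · intro p hp
    obtain ⟨q, -, rfl⟩ := mem_image.1 hp
    cases q with
    | none => simp [ix]
    | some q => have := q.2; simp only [ix]; omega
  · obtain ⟨p, hp⟩ := hne
    exact ⟨ix p, mem_image_of_mem _ (by simpa [hB] using (h01 p).resolve_left hp)⟩
  · intro i hi
    rw [sum_image fun p _ q _ e => ix_inj e, hsum, Fintype.sum_option, Fin.sum_univ_add]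
    have hp := BCHGeo.par AA α β ⟨i, hi⟩
    simp only [← hh] at hp
    have hn : h none = β := by rw [hh]; simp [BCHGeo.vx]
    have he := BCH.G_even i hi
    rw [← Fin.sum_univ_eq_sum_range (fun j => BCH.G i (14 + j)) 112] at he
    have e1 : ∑ i' : Fin 14, BCH.G i (ix (some (Fin.castAdd 112 i'))) * h (some (Fin.castAdd 112 i')) =
        h (some (Fin.castAdd 112 ⟨i, hi⟩)) := by
      rw [sum_eq_single ⟨i, hi⟩]
      · simp only [ix, Fin.val_castAdd]; rw [BCH.G_id i hi i hi]; simp
      · intro j _ hj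
        simp only [ix, Fin.val_castAdd]
        rw [BCH.G_id i hi j j.2, if_neg (fun e => hj (Fin.ext e.symm)), zero_mul]
      · simp
    have e2 : ∑ j : Fin 112, BCH.G i (ix (some (Fin.natAdd 14 j))) * h (some (Fin.natAdd 14 j)) =
        ∑ j, AA ⟨i, hi⟩ j * h (some (Fin.natAdd 14 j)) :=
      sum_congr rfl fun j _ => by simp only [ix, Fin.val_natAdd, AA]
    have e3 : ∑ j, AA ⟨i, hi⟩ j = ∑ j : Fin 112, BCH.G i (14 + j) := sum_congr rfl fun j _ => rfl
    rw [e1, e2, hp, hn, e3]
    simp only [ix]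
    rw [← he]
    generalize (1 + ∑ j : Fin 112, BCH.G i (14 + j)) = w
    have hb := h01 none
    rw [hn] at hb
    rcases hb with hb | hb <;> rw [hb] <;> omega

theorem not_cayley (m k : ℕ) (Q : Fin (k + 1) → Finset (Fin m → ℤ)) (hQ : ∀ i, (Q i).Nonempty)
    (hE : LatEquiv (BCHGeo.P AA) (cayley Q)) : k + 1 ≤ 25 := by
  obtain ⟨U, V, t, -, -, hP⟩ := hE
  let α : Fin (k + 1) → Fin (14 + 112) → ℤ :=
    Fin.cases (fun q => - ∑ j, U (Sum.inr j) q) (fun j q => U (Sum.inr j) q)
  let β : Fin (k + 1) → ℤ := Fin.cases (1 - ∑ j, t (Sum.inr j)) (fun j => t (Sum.inr j))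
  let g : Fin (k + 1) → (Fin m ⊕ Fin k → ℝ) → ℝ :=
    Fin.cases (fun y => 1 - ∑ j, y (Sum.inr j)) (fun j y => y (Sum.inr j))
  have hg : ∀ i (x : Fin (14 + 112) → ℝ), g i (fun j => ∑ q, (U j q : ℝ) * x q + (t j : ℝ)) =
      ∑ q, (α i q : ℝ) * x q + β i := by
    intro i x
    induction i using Fin.cases with
    | zero =>
      simp only [g, α, β, Fin.cases_zero]
      push_cast
      simp only [sum_add_distrib, neg_mul, sum_neg_distrib, sum_mul]
      rw [sum_comm]; ring
    | succ j => simp only [g, α, β, Fin.cases_succ]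
  have hgen : ∀ i i' (p : Fin m → ℝ),
      g i (Sum.elim p (fun j : Fin k => if i' = j.succ then (1 : ℝ) else 0)) =
        if i' = i then 1 else 0 := by
    intro i i' p
    induction i using Fin.cases with
    | zero =>
      simp only [g, Fin.cases_zero, Sum.elim_inr]
      induction i' using Fin.cases with
      | zero => simp [(Fin.succ_ne_zero _).symm]
      | succ j => simp
    | succ j => simp only [g, Fin.cases_succ, Sum.elim_inr]
  have hconv : ∀ i, Convex ℝ {y | 0 ≤ g i y} := by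
    intro i y hy y' hy' c c' hc hc' hcc
    simp only [Set.mem_ofPred_eq] at hy hy' ⊢
    have : g i (c • y + c' • y') = c * g i y + c' * g i y' := by
      induction i using Fin.cases with
      | zero =>
        simp only [g, Fin.cases_zero, Pi.add_apply, Pi.smul_apply, smul_eq_mul, sum_add_distrib,
          ← mul_sum]
        linear_combination (-1 : ℝ) * hcc
      | succ j => simp only [g, Fin.cases_succ, Pi.add_apply, Pi.smul_apply, smul_eq_mul]
    rw [this]; positivity
  have hnn : ∀ i, ∀ y ∈ cayley Q, 0 ≤ g i y := by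
    intro i y hy
    refine convexHull_min (t := {y | 0 ≤ g i y}) ?_ (hconv i) hy
    intro y hy
    obtain ⟨i', p, -, rfl⟩ := Set.mem_iUnion.1 hy
    simp only [Set.mem_ofPred_eq, hgen]
    split_ifs <;> norm_num
  have hsum : ∀ y, ∑ i, g i y = 1 := by
    intro y; rw [Fin.sum_univ_succ]; simp [g]
  let h : Fin (k + 1) → Option (Fin (14 + 112)) → ℤ := fun i p => ∑ q, α i q * BCHGeo.vx AA p q + β i
  have hh : ∀ i p, (h i p : ℝ) =
      g i (fun j => ∑ q, (U j q : ℝ) * BCHGeo.vr AA p q + (t j : ℝ)) := by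
    intro i p; rw [hg]; simp only [h, BCHGeo.vr]; push_cast; rfl
  have hmem : ∀ p, (fun j => ∑ q, (U j q : ℝ) * BCHGeo.vr AA p q + (t j : ℝ)) ∈ cayley Q := by
    intro p; rw [← hP]; exact ⟨_, subset_convexHull _ _ ⟨p, rfl⟩, rfl⟩
  have h0 : ∀ i p, 0 ≤ h i p := by
    intro i p
    have := hnn i _ (hmem p)
    rw [← hh] at this; exact_mod_cast this
  have h1 : ∀ p, ∑ i, h i p = 1 := by
    intro p
    have := hsum (fun j => ∑ q, (U j q : ℝ) * BCHGeo.vr AA p q + (t j : ℝ))
    simp only [← hh] at this; exact_mod_cast this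
  have h01 : ∀ i p, h i p = 0 ∨ h i p = 1 := by
    intro i p
    have := single_le_sum (f := fun i => h i p) (fun i _ => h0 i p) (mem_univ i)
    rw [h1] at this
    have := h0 i p
    omega
  have hne : ∀ i, ∃ p, h i p ≠ 0 := by
    intro i
    by_contra hcon
    push Not at hcon
    obtain ⟨z, hz⟩ := hQ i
    have hy : Sum.elim (fun q => (z q : ℝ)) (fun j : Fin k => if i = j.succ then (1 : ℝ) else 0) ∈
        cayley Q := subset_convexHull _ _ (Set.mem_iUnion.2 ⟨i, _, subset_convexHull _ _ ⟨z, hz, rfl⟩, rfl⟩)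
    rw [← hP] at hy
    obtain ⟨x, hx, hxe⟩ := hy
    have hl : IsLinearMap ℝ (fun x : Fin (14 + 112) → ℝ => ∑ q, (α i q : ℝ) * x q) := by
      constructor
      · intro x y; simp only [Pi.add_apply, mul_add, sum_add_distrib]
      · intro c x; simp only [Pi.smul_apply, smul_eq_mul, mul_sum]
        exact sum_congr rfl fun q _ => by ring
    have := BCHGeo.P_le AA _ hl (-β i) (by
      intro p
      have e1 := hh i p
      rw [hg, hcon] at e1
      push_cast at e1
      linarith) x hx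
    have e2 := hg i x
    have e3 := hgen i i (fun q => (z q : ℝ))
    simp only at hxe
    rw [hxe, e3] at e2
    simp only [if_true] at e2
    linarith
  have h5 : ∀ i, 5 ≤ ∑ p, h i p := fun i => five (α i) (β i) (h i) (fun _ => rfl) (h01 i) (hne i)
  have h6 : ∑ _i : Fin (k + 1), (5 : ℤ) ≤ ∑ i, ∑ p, h i p := sum_le_sum fun i _ => h5 i
  rw [sum_comm, sum_congr rfl fun p _ => h1 p, sum_const, sum_const, card_univ, card_univ,
    Fintype.card_option, Fintype.card_fin, Fintype.card_fin] at h6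
  simp only [nsmul_eq_mul] at h6
  push_cast at h6
  omega

/-- A full-dimensional lattice polytope of degree `s ≥ 1` with `d > (17 s - 4) / 6` that is not a
Cayley polytope of `d + 1 - ⌊(17 s - 4) / 6⌋` or more lattice polytopes. -/
theorem result : ∃ (d s : ℕ) (S : Finset (Fin d → ℤ)),
    (interior (latPoly S)).Nonempty ∧ HasDegree (latPoly S) s ∧ 1 ≤ s ∧ 17 * s - 4 < 6 * d ∧
    ∀ (m k : ℕ) (Q : Fin (k + 1) → Finset (Fin m → ℤ)), (∀ i, (Q i).Nonempty) →
      d + 1 - (17 * s - 4) / 6 ≤ k + 1 → ¬ LatEquiv (latPoly S) (cayley Q) := by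
  refine ⟨14 + 112, 36, SS, ?_, ⟨by norm_num, ⟨by norm_num, z0, ?_⟩, ?_⟩, by norm_num, by norm_num, ?_⟩
  · rw [SS_eq]
    refine ⟨(91 : ℝ)⁻¹ • fun i => (z0 i : ℝ), ?_⟩
    have := (BCHGeo.mem_int AA (by norm_num) 1 one_pos ((91 : ℝ)⁻¹ • fun i => (z0 i : ℝ))).2 ?_
    · rwa [show HSMul.hSMul (1 : ℝ) (BCHGeo.P AA) = BCHGeo.P AA from one_smul ℝ _] at this
    · obtain ⟨h1, h2⟩ := z0_int
      simp only [(BCHGeo.L_lin AA _).map_smul, smul_eq_mul, ← mul_sum]
      refine ⟨fun p => mul_pos (by norm_num) (h1 p), ?_⟩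
      push_cast at h2
      linarith
  · rw [SS_eq]
    exact (BCHGeo.mem_int AA (by norm_num) ((91 : ℕ) : ℝ) (by norm_num) _).2 z0_int
  · rintro k ⟨hk, z, hz⟩
    rw [SS_eq] at hz
    have := (BCHGeo.mem_int AA (by norm_num) (k : ℝ) (by exact_mod_cast hk) _).1 hz
    exact lower k z this.1 this.2
  · intro m k Q hQ hk hE
    rw [SS_eq] at hE
    have := not_cayley m k Q hQ hE
    omega

end Pool.Agent.Results.MP_c7d842_co.Counter
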